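import Pool.Agent.Helper19.CF.Perm

/-!
# MP_d067c8_co : circular flow number below 5 for cubic graphs with a bipartite complement of a
near-perfect matching

Let `G` be a cubic graph and `Z` a matching missing exactly two vertices `s`, `t` with `G - Z`
bipartite.

* (1) The cuts that matter are the ones separating `t` from `s`, disjoint from `Z`, all of whose
  edges have their end on the side of `t` in the colour class of `s`; if they all have at least
  `4m + 1` edges, then `F_c(G) ≤ 4 + 1/m`.
* (2) If `G` is bridgeless and `Z` meets all `5`-edge-cuts separating two cycles (for instance, if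
  `G` is cyclically `6`-edge-connected), then `F_c(G) ≤ 9/2`.
-/

namespace Pool.Agent.Results.MP_d067c8_co.BipartiteComplement

open Pool.Agent.Helper19.CF

theorem result :
    ∀ (V : Type) [Fintype V] [DecidableEq V] (G : SimpleGraph V) [DecidableRel G.Adj],
      G.IsRegularOfDegree 3 →
      ∀ Z : G.Subgraph, Z.IsMatching → ∀ s t : V, s ≠ t → Z.verts = {s, t}ᶜ →
        -- (1)
        (∀ c : V → Bool, (∀ u v, G.Adj u v → ¬ Z.Adj u v → c u ≠ c v) →
          ∀ m : ℕ, 1 ≤ m →
          (∀ S : Set V, t ∈ S → s ∉ S →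
            (∀ u ∈ S, ∀ v ∉ S, G.Adj u v → ¬ Z.Adj u v ∧ c u = c s) →
            4 * m + 1 ≤ cutSize G S) →
          circularFlowNumber G ≤ 4 + 1 / m) ∧
        -- (2)
        ((∀ e ∈ G.edgeSet, ¬ G.IsBridge e) →
          (G.deleteEdges Z.edgeSet).Colorable 2 →
          (∀ S : Set V, HasCycleIn G S → HasCycleIn G Sᶜ → cutSize G S = 5 →
            ∃ u ∈ S, ∃ v ∉ S, Z.Adj u v) →
          circularFlowNumber G ≤ 9 / 2) := by
  intro V _ _ G _ hreg Z hZ s t hst hv
  exact ⟨fun c hc m hm hcut => part_one G hreg Z hZ s t hst hv c hc m hm hcut,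
    fun hbr hbip hcut => part_two G hreg hbr Z hZ s t hst hv hbip hcut⟩

end Pool.Agent.Results.MP_d067c8_co.BipartiteComplement
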