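import Pool.Agent.Helper19.RG.Final3

/-!
# MP_d067c8_co : cubic graphs with a 2-factor consisting of two chordless cycles

Let `G` be a cubic graph and `H` a 2-factor of `G` with exactly two components, such that every
edge of `G` outside `H` joins the two components (`G` is a cycle permutation graph; the two
cycles have the same length `N`, and `G` has `2N` vertices).  If `G` is cyclically
`5`-edge-connected, then `F_c(G) ≤ 9/2` or `G` is the Petersen graph (the graph on the 2-subsets
of a 5-set, adjacent when disjoint).  So the answer to the question is positive for all these
graphs.

Outline. If the cycles of `H` have odd length at least `7`, then `G` has a matching `Z` missing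
exactly two vertices `s` and `t` such that `G - Z` is bipartite.  It gives the balanced valuation
of a flow with `r = 9/2`, unless some `5`-edge-cut separating two cycles and separating `s` from
`t` is disjoint from `Z` and all its edges have ends of one colour on the same side.  For `N` equal
to `3` modulo `4` the matching `Z` can be chosen inside `H` and no cut obstructs; for even `N` the
graph is 3-edge-colourable.  For `N` equal to `1` modulo `4` the matchings `Z` are made from few
rim edges and many spokes (words): if all of them are obstructed by cuts, then a cut with more
than five vertices on both sides exists; a minimal side with at least nine vertices of such a cut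
contains no further side of a cut except in a few local patterns with seven vertices, which are
excluded one after the other; the remaining graph has a staircase pattern and a flow.
-/

namespace Pool.Agent.Results.MP_d067c8_co.PermutationGraphs

open Pool.Agent.Helper19.CF

theorem result :
    ∀ (V : Type) [Fintype V] [DecidableEq V] (G H : SimpleGraph V) [DecidableRel G.Adj]
      [DecidableRel H.Adj], G.IsRegularOfDegree 3 → H ≤ G → H.IsRegularOfDegree 2 →
      Nat.card H.ConnectedComponent = 2 →
      (∀ u v, G.Adj u v → ¬ H.Adj u v → ¬ H.Reachable u v) →
      CyclicallyEdgeConnected G 5 → circularFlowNumber G ≤ 9 / 2 ∨
        Nonempty (G ≃g SimpleGraph.fromRel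
          (fun s t : {s : Finset (Fin 5) // s.card = 2} => Disjoint s.1 t.1)) := by
  intro V _ _ G H _ _ hG hHG hH h2 hch
  exact (Pool.Agent.Helper19.RG.main_final G H hG hHG hH h2 hch).1

end Pool.Agent.Results.MP_d067c8_co.PermutationGraphs
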