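import Pool.Agent.Helper19.TT.FlowPart

/-!
# MP_d067c8_co : cubic graphs with a 2-factor having exactly two odd cycles, one of them of
length congruent to 3 modulo 4

Let `G` be a cubic graph and `H` a 2-factor of `G` with exactly two odd cycles, one of which has
length congruent to `3` modulo `4` (no condition on the other cycles).

* (1) `G` has a matching `Z`, contained in `H` and missing exactly two vertices, such that `G - Z`
  is bipartite.
* (2) If `G` is cyclically `5`-edge-connected and every `5`-edge-cut separating two cycles which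
  has exactly two of its edges in `H` has exactly five vertices on one of its sides (for instance,
  if `G` is cyclically `6`-edge-connected), then `F_c(G) ≤ 9/2`.

The proof of (1) rotates the unmatched vertices of the near perfect matchings of the two odd
cycles and computes the sign of the resulting permutation of the matching edges.
-/

namespace Pool.Agent.Results.MP_d067c8_co.TwoOddCycles

open Pool.Agent.Helper19.CF Pool.Agent.Helper19.TT

theorem result :
    ∀ (V : Type) [Fintype V] [DecidableEq V] (G H : SimpleGraph V) [DecidableRel G.Adj]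
      [DecidableRel H.Adj], G.IsRegularOfDegree 3 → H ≤ G → H.IsRegularOfDegree 2 →
      H.oddComponents.ncard = 2 → (∃ K ∈ H.oddComponents, K.supp.ncard % 4 = 3) →
      -- (1)
      (∃ Z : G.Subgraph, Z.IsMatching ∧ (∀ u v, Z.Adj u v → H.Adj u v) ∧
        (∃ s t : V, s ≠ t ∧ Z.verts = {s, t}ᶜ) ∧ (G.deleteEdges Z.edgeSet).Colorable 2) ∧
      -- (2)
      (CyclicallyEdgeConnected G 5 →
        (∀ S : Set V, HasCycleIn G S → HasCycleIn G Sᶜ → cutSize G S = 5 →
          cutSize H S = 2 → S.ncard = 5 ∨ Sᶜ.ncard = 5) →
        circularFlowNumber G ≤ 9 / 2) := by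
  intro V _ _ G H _ _ hG hHG hH hodd hK
  have hnc : ∀ (F : SimpleGraph V) [DecidableRel F.Adj] (v : V),
      (F.neighborSet v).ncard = F.degree v := by
    intro F _ v
    rw [Set.ncard_eq_toFinset_card', ← SimpleGraph.card_neighborFinset_eq_degree]
    rfl
  have h1 := main_matching G (fun v => by rw [hnc, hG v]) H hHG (fun v => by rw [hnc, hH v])
    hodd hK
  refine ⟨h1, fun hcut hcut5 => ?_⟩
  obtain ⟨Z, hZ1, hZH, ⟨s, t, hst, hZ2⟩, hZ3⟩ := h1
  exact flow_part_two G hG H hHG hH Z hZ1 hZH s t hst hZ2 hZ3 hcut hcut5

end Pool.Agent.Results.MP_d067c8_co.TwoOddCycles
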